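import Mathlib

/-!
Legendre's theorem on ternary quadratic forms (coprime form, pigeonhole proof), and
elementary Chinese remainder helpers.
-/

set_option autoImplicit false

namespace Pool.Agent.Lib.Legendre

/-- differences of two naturals below `sqrt (k-1) + 1` have square below `k`. -/
lemma sq_sub_lt (k : ℕ) (hk : 0 < k) (x y : ℕ) (hx : x < Nat.sqrt (k - 1) + 1)
    (hy : y < Nat.sqrt (k - 1) + 1) : ((x : ℤ) - y) ^ 2 < (k : ℤ) := by
  have h1 : Nat.sqrt (k - 1) * Nat.sqrt (k - 1) ≤ k - 1 := Nat.sqrt_le (k - 1)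
  set s := Nat.sqrt (k - 1) with hs
  have h2 : (s : ℤ) * s < k := by
    have : s * s < k := by omega
    exact_mod_cast this
  have hx' : (x : ℤ) ≤ s := by exact_mod_cast Nat.lt_succ_iff.mp hx
  have hy' : (y : ℤ) ≤ s := by exact_mod_cast Nat.lt_succ_iff.mp hy
  have hx0 : (0 : ℤ) ≤ x := Int.natCast_nonneg x
  have hy0 : (0 : ℤ) ≤ y := Int.natCast_nonneg y
  nlinarith

lemma le_sq_succ (k : ℕ) (hk : 0 < k) : k ≤ (Nat.sqrt (k - 1) + 1) ^ 2 := by
  have h1 : k - 1 < (Nat.sqrt (k - 1) + 1) * (Nat.sqrt (k - 1) + 1) := Nat.lt_succ_sqrt (k - 1)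
  rw [sq]; omega

/-- A short nonzero vector in a congruence lattice. -/
lemma exists_short (a b : ℕ) (ha : 0 < a) (hb : 0 < b) (hns : ¬ IsSquare a) (A B : ℤ) :
    ∃ x y z : ℤ, (x ≠ 0 ∨ y ≠ 0 ∨ z ≠ 0) ∧ x ^ 2 < (b : ℤ) ∧ y ^ 2 < (a : ℤ) ∧
      z ^ 2 < (a : ℤ) * b ∧ ((a : ℤ) * b) ∣ z - A * x - B * y := by
  classical
  have hab : 0 < a * b := Nat.mul_pos ha hb
  set X := Nat.sqrt (b - 1) + 1 with hX
  set Y := Nat.sqrt (a - 1) + 1 with hY
  set Z := Nat.sqrt (a * b - 1) + 1 with hZ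
  have h1 : b ≤ X ^ 2 := le_sq_succ b hb
  have h2 : a < Y ^ 2 := by
    rcases (le_sq_succ a ha).lt_or_eq with h | h
    · exact h
    · exact absurd ⟨Y, by rw [← sq]; exact h⟩ hns
  have h3 : a * b ≤ Z ^ 2 := le_sq_succ (a * b) hab
  have h4 : a * b < X * (Y * Z) := by
    by_contra hcon
    have hle : X * (Y * Z) ≤ a * b := not_lt.mp hcon
    have h5 : (X * (Y * Z)) ^ 2 ≤ (a * b) ^ 2 := Nat.pow_le_pow_left hle 2
    have h6 : b * (a * (a * b)) < X ^ 2 * (Y ^ 2 * Z ^ 2) := by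
      have : a * (a * b) < Y ^ 2 * Z ^ 2 := Nat.mul_lt_mul_of_lt_of_le h2 h3 (by omega)
      exact Nat.mul_lt_mul_of_le_of_lt h1 this (by omega)
    have h7 : (X * (Y * Z)) ^ 2 = X ^ 2 * (Y ^ 2 * Z ^ 2) := by ring
    have h8 : (a * b) ^ 2 = b * (a * (a * b)) := by ring
    omega
  haveI : NeZero (a * b) := ⟨hab.ne'⟩
  have hcard : (Finset.univ : Finset (ZMod (a * b))).card <
      (Finset.range X ×ˢ (Finset.range Y ×ˢ Finset.range Z)).card := by
    rw [Finset.card_univ, ZMod.card, Finset.card_product, Finset.card_product, Finset.card_range,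
      Finset.card_range, Finset.card_range]
    exact h4
  obtain ⟨⟨x1, y1, z1⟩, hp, ⟨x2, y2, z2⟩, hq, hne, heq⟩ :=
    Finset.exists_ne_map_eq_of_card_lt_of_maps_to hcard
      (f := fun p : ℕ × ℕ × ℕ => (((p.2.2 : ℤ) - A * p.1 - B * p.2.1 : ℤ) : ZMod (a * b)))
      (fun _ _ => Finset.mem_coe.mpr (Finset.mem_univ _))
  simp only [Finset.mem_product, Finset.mem_range] at hp hq
  refine ⟨(x1 : ℤ) - x2, (y1 : ℤ) - y2, (z1 : ℤ) - z2, ?_, sq_sub_lt b hb _ _ hp.1 hq.1,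
    sq_sub_lt a ha _ _ hp.2.1 hq.2.1, ?_, ?_⟩
  · by_contra hcon
    push Not at hcon
    apply hne
    have e1 : x1 = x2 := by have := hcon.1; omega
    have e2 : y1 = y2 := by have := hcon.2.1; omega
    have e3 : z1 = z2 := by have := hcon.2.2; omega
    rw [e1, e2, e3]
  · have := sq_sub_lt (a * b) hab _ _ hp.2.2 hq.2.2
    exact_mod_cast this
  · have := (ZMod.intCast_eq_intCast_iff_dvd_sub _ _ _).mp heq.symm
    push_cast at this
    convert this using 1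
    ring

/-- **Legendre's theorem**, coprime form with `a > 0 > -A`. -/
theorem legendre_int (n A : ℤ) (hn : 0 < n) (hA : 0 < A) (hc : IsCoprime n A)
    (h1 : ∃ t : ℤ, A ∣ t ^ 2 - n) (h2 : ∃ t : ℤ, n ∣ t ^ 2 + A) :
    ∃ x y z : ℤ, x ≠ 0 ∧ n * x ^ 2 = z ^ 2 + A * y ^ 2 := by
  obtain ⟨a, rfl⟩ := Int.eq_ofNat_of_zero_le hn.le
  obtain ⟨b, rfl⟩ := Int.eq_ofNat_of_zero_le hA.le
  have ha : 0 < a := by exact_mod_cast hn
  have hb : 0 < b := by exact_mod_cast hA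
  by_cases hsq : IsSquare a
  · obtain ⟨s, hs⟩ := hsq
    refine ⟨1, 0, s, one_ne_zero, ?_⟩
    rw [hs]; push_cast; ring
  obtain ⟨α, hα⟩ := h1
  obtain ⟨β, hβ⟩ := h2
  obtain ⟨u, v, huv⟩ := hc
  obtain ⟨x, y, z, hne, hx, hy, hz, k, hk⟩ :=
    exists_short a b ha hb hsq (α * u * a) (β * v * b)
  obtain ⟨k1, hk1⟩ := hα
  obtain ⟨k2, hk2⟩ := hβ
  have hz' : z = α * u * a * x + β * v * b * y + a * b * k := by linarith
  have hda : (a : ℤ) ∣ z ^ 2 - a * x ^ 2 + b * y ^ 2 := by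
    have e1 : (a : ℤ) ∣ z - β * y := by
      refine ⟨α * u * x - β * u * y + b * k, ?_⟩
      rw [hz']; linear_combination (β * y) * huv
    obtain ⟨j, hj⟩ := e1
    refine ⟨j * (z + β * y) - x ^ 2 + k2 * y ^ 2, ?_⟩
    linear_combination (z + β * y) * hj + y ^ 2 * hk2
  have hdb : (b : ℤ) ∣ z ^ 2 - a * x ^ 2 + b * y ^ 2 := by
    have e1 : (b : ℤ) ∣ z - α * x := by
      refine ⟨β * v * y - α * v * x + a * k, ?_⟩
      rw [hz']; linear_combination (α * x) * huv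
    obtain ⟨j, hj⟩ := e1
    refine ⟨j * (z + α * x) + y ^ 2 + k1 * x ^ 2, ?_⟩
    linear_combination (z + α * x) * hj + x ^ 2 * hk1
  obtain ⟨m, hm⟩ := IsCoprime.mul_dvd ⟨u, v, huv⟩ hda hdb
  have hx0 := sq_nonneg x
  have hy0 := sq_nonneg y
  have hz0 := sq_nonneg z
  have hab : (0 : ℤ) < a * b := mul_pos hn hA
  have hm1 : -1 < m := by
    by_contra hcon
    have : m ≤ -1 := not_lt.mp hcon
    have h3 : (a : ℤ) * x ^ 2 < a * b := mul_lt_mul_of_pos_left hx hn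
    have h4 : (0 : ℤ) ≤ b * y ^ 2 := mul_nonneg hA.le hy0
    nlinarith
  have hm2 : m < 2 := by
    by_contra hcon
    have : 2 ≤ m := not_lt.mp hcon
    have h3 : (b : ℤ) * y ^ 2 < b * a := mul_lt_mul_of_pos_left hy hA
    have h4 : (0 : ℤ) ≤ a * x ^ 2 := mul_nonneg hn.le hx0
    nlinarith
  have key : ∀ X Y Z : ℤ, (X ≠ 0 ∨ Y ≠ 0 ∨ Z ≠ 0) → (a : ℤ) * X ^ 2 = Z ^ 2 + b * Y ^ 2 →
      ∃ x y z : ℤ, x ≠ 0 ∧ (a : ℤ) * x ^ 2 = z ^ 2 + b * y ^ 2 := by
    intro X Y Z hne h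
    refine ⟨X, Y, Z, ?_, h⟩
    rintro rfl
    have h4 : (0 : ℤ) ≤ b * Y ^ 2 := mul_nonneg hA.le (sq_nonneg Y)
    have h5 := sq_nonneg Z
    have hZ : Z = 0 := by
      have : Z ^ 2 = 0 := by nlinarith
      exact pow_eq_zero_iff (two_ne_zero) |>.mp this
    have hY : Y = 0 := by
      have : (b : ℤ) * Y ^ 2 = 0 := by nlinarith
      rcases mul_eq_zero.mp this with h | h
      · exact absurd h hA.ne'
      · exact pow_eq_zero_iff (two_ne_zero) |>.mp h
    simp [hY, hZ] at hne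
  have hm01 : m = 0 ∨ m = 1 := by omega
  rcases hm01 with rfl | rfl
  · exact key x y z hne (by linarith)
  · refine key (x * z - b * y) (y * z - a * x) (z ^ 2 - a * b) (Or.inr (Or.inr ?_)) ?_
    · intro h; linarith
    · linear_combination (-(z ^ 2 - a * b)) * hm

/-- `Rep A t`: the rational `t` is a value of the form `y ^ 2 + A * z ^ 2`. -/
def Rep (A : ℚ) (t : ℚ) : Prop := ∃ y z : ℚ, t = y ^ 2 + A * z ^ 2

theorem legendre_rep (n A : ℤ) (hn : 0 < n) (hA : 0 < A) (hc : IsCoprime n A)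
    (h1 : ∃ t : ℤ, A ∣ t ^ 2 - n) (h2 : ∃ t : ℤ, n ∣ t ^ 2 + A) : Rep A n := by
  obtain ⟨x, y, z, hx, h⟩ := legendre_int n A hn hA hc h1 h2
  have hx' : (x : ℚ) ≠ 0 := by exact_mod_cast hx
  refine ⟨z / x, y / x, ?_⟩
  have h' : (n : ℚ) * x ^ 2 = z ^ 2 + A * y ^ 2 := by exact_mod_cast h
  field_simp
  linarith

lemma Rep.mul {A s t : ℚ} (hs : Rep A s) (ht : Rep A t) : Rep A (s * t) := by
  obtain ⟨a, b, rfl⟩ := hs
  obtain ⟨c, d, rfl⟩ := ht
  exact ⟨a * c - A * b * d, a * d + b * c, by ring⟩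

lemma Rep.mul_sq {A s : ℚ} (hs : Rep A s) (f : ℚ) : Rep A (s * f ^ 2) := by
  obtain ⟨a, b, rfl⟩ := hs
  exact ⟨a * f, b * f, by ring⟩

lemma Rep.of_mul_sq {A s f : ℚ} (hf : f ≠ 0) (hs : Rep A (s * f ^ 2)) : Rep A s := by
  have := hs.mul_sq f⁻¹
  rwa [mul_assoc, ← mul_pow, mul_inv_cancel₀ hf, one_pow, mul_one] at this

/-- clearing denominators -/
lemma Rep.exists_int {A t : ℤ} (h : Rep A t) :
    ∃ D y z : ℤ, D ≠ 0 ∧ t * D ^ 2 = y ^ 2 + A * z ^ 2 := by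
  obtain ⟨y, z, h⟩ := h
  refine ⟨y.den * z.den, y.num * z.den, z.num * y.den, ?_, ?_⟩
  · exact mul_ne_zero (by exact_mod_cast y.den_nz) (by exact_mod_cast z.den_nz)
  · have hy : (y.num : ℚ) = y * y.den := (Rat.mul_den_eq_num y).symm
    have hz : (z.num : ℚ) = z * z.den := (Rat.mul_den_eq_num z).symm
    have : (t : ℚ) * (y.den * z.den) ^ 2 =
        (y.num * z.den) ^ 2 + A * (z.num * y.den) ^ 2 := by
      rw [hy, hz, h]; ring
    exact_mod_cast this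

/-- a nonzero value has a representation with nonzero second coordinate -/
lemma Rep.exists_ne {A t : ℚ} (hA : 0 < A) (ht : t ≠ 0) (h : Rep A t) :
    ∃ y z : ℚ, z ≠ 0 ∧ t = y ^ 2 + A * z ^ 2 := by
  obtain ⟨y, z, h⟩ := h
  by_cases hz : z = 0
  · subst hz
    have hy : y ≠ 0 := by rintro rfl; simp at h; exact ht h
    have h1 : (1 + A) ≠ 0 := by positivity
    refine ⟨(1 - A) * y / (1 + A), 2 * y / (1 + A), ?_, ?_⟩
    · exact div_ne_zero (mul_ne_zero two_ne_zero hy) h1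
    · rw [h]; field_simp; ring
  · exact ⟨y, z, hz, h⟩

/-- Chinese remainder theorem for two coprime moduli. -/
lemma crt2 {m n : ℤ} (h : IsCoprime m n) (a b : ℤ) : ∃ t : ℤ, m ∣ t - a ∧ n ∣ t - b := by
  obtain ⟨u, v, huv⟩ := h
  refine ⟨a * v * n + b * u * m, ⟨b * u - a * u, ?_⟩, ⟨a * v - b * v, ?_⟩⟩
  · linear_combination a * huv
  · linear_combination b * huv

/-- Chinese remainder theorem for a finite set of primes. -/
lemma crt_primes (S : Finset ℕ) (hS : ∀ q ∈ S, q.Prime) (f : ℕ → ℤ) :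
    ∃ t : ℤ, ∀ q ∈ S, (q : ℤ) ∣ t - f q := by
  classical
  induction S using Finset.induction_on with
  | empty => exact ⟨0, by simp⟩
  | insert p S hp ih =>
    obtain ⟨t, ht⟩ := ih (fun q hq => hS q (Finset.mem_insert_of_mem hq))
    have hcop : IsCoprime (p : ℤ) (∏ q ∈ S, (q : ℤ)) := by
      apply IsCoprime.prod_right
      intro q hq
      have hpq : p ≠ q := by rintro rfl; exact hp hq
      exact Nat.isCoprime_iff_coprime.mpr ((Nat.coprime_primes (hS p (Finset.mem_insert_self _ _))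
        (hS q (Finset.mem_insert_of_mem hq))).mpr hpq)
    obtain ⟨s, hs1, hs2⟩ := crt2 hcop (f p) t
    refine ⟨s, ?_⟩
    intro q hq
    rcases Finset.mem_insert.mp hq with rfl | hq
    · exact hs1
    · have h1 : (q : ℤ) ∣ s - t := (Finset.dvd_prod_of_mem _ hq).trans hs2
      have := dvd_add h1 (ht q hq)
      rwa [sub_add_sub_cancel] at this

/-- a squarefree number divides `t` as soon as all its prime factors do -/
lemma dvd_of_primes_dvd {m : ℕ} (hm : Squarefree m) {t : ℤ}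
    (h : ∀ q : ℕ, q.Prime → q ∣ m → (q : ℤ) ∣ t) : (m : ℤ) ∣ t := by
  rw [← Nat.prod_primeFactors_of_squarefree hm]
  push_cast
  apply Finset.prod_dvd_of_coprime
  · intro p hp q hq hpq
    exact Nat.isCoprime_iff_coprime.mpr ((Nat.coprime_primes (Nat.prime_of_mem_primeFactors hp)
      (Nat.prime_of_mem_primeFactors hq)).mpr hpq)
  · intro q hq
    exact h q (Nat.prime_of_mem_primeFactors hq) (Nat.dvd_of_mem_primeFactors hq)

/-- a square modulo each prime factor of a squarefree `m` is a square modulo `m` -/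
lemma sq_mod_of_primes {m : ℕ} (hm : Squarefree m) (a : ℤ)
    (h : ∀ q : ℕ, q.Prime → q ∣ m → ∃ t : ℤ, (q : ℤ) ∣ t ^ 2 - a) :
    ∃ t : ℤ, (m : ℤ) ∣ t ^ 2 - a := by
  classical
  choose! f hf using h
  obtain ⟨t, ht⟩ := crt_primes m.primeFactors (fun q hq => Nat.prime_of_mem_primeFactors hq) f
  refine ⟨t, dvd_of_primes_dvd hm ?_⟩
  intro q hq hqm
  have h1 := ht q (Nat.mem_primeFactors.mpr ⟨hq, hqm, hm.ne_zero⟩)
  have h2 := hf q hq hqm
  have : t ^ 2 - a = (t - f q) * (t + f q) + (f q ^ 2 - a) := by ring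
  rw [this]
  exact dvd_add (h1.mul_right _) h2

end Pool.Agent.Lib.Legendre
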