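import Pool.Agent.Lib.Legendre.Basic

/-!
Jacobi symbol helpers, a Dirichlet wrapper, and rational representation by the ternary forms
`a ^ 2 + b ^ 2 + p * c ^ 2` for a prime `p` congruent to 3 modulo 4.
-/

set_option autoImplicit false

namespace Pool.Agent.Lib.Legendre

lemma sq_of_jac {p : ℕ} (hp : p.Prime) {a : ℤ} (h : jacobiSym a p = 1) :
    ∃ t : ℤ, (p : ℤ) ∣ t ^ 2 - a := by
  have : Fact p.Prime := ⟨hp⟩
  obtain ⟨r, hr⟩ := ZMod.isSquare_of_jacobiSym_eq_one h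
  obtain ⟨t, rfl⟩ := ZMod.intCast_surjective r
  refine ⟨t, ?_⟩
  rw [← ZMod.intCast_zmod_eq_zero_iff_dvd]
  push_cast
  rw [hr]; ring

lemma jac_left_congr {a b : ℤ} {n : ℕ} (h : (n : ℤ) ∣ a - b) : jacobiSym a n = jacobiSym b n :=
  jacobiSym.mod_left' ((Int.emod_emod_of_dvd _ (dvd_refl _)).symm.trans
    (by rw [Int.emod_emod_of_dvd _ (dvd_refl _)]; exact (Int.emod_eq_emod_iff_emod_sub_eq_zero.mpr
      (Int.emod_eq_zero_of_dvd h))))

lemma jac_of_sq {n : ℕ} {a t : ℤ} (hc : IsCoprime a n) (h : (n : ℤ) ∣ t ^ 2 - a) :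
    jacobiSym a n = 1 := by
  rw [← jac_left_congr h]
  apply jacobiSym.sq_one'
  obtain ⟨k, hk⟩ := h
  obtain ⟨u, v, huv⟩ := hc
  apply Int.isCoprime_iff_gcd_eq_one.mp
  exact ⟨u * t, v - u * k, by linear_combination huv + u * hk⟩

lemma jac_right_congr (a : ℤ) {b c : ℕ} (hb : Odd b) (hc : Odd c) (h : 4 * a ∣ (b : ℤ) - c) :
    jacobiSym a b = jacobiSym a c := by
  rw [jacobiSym.mod_right a hb, jacobiSym.mod_right a hc]
  congr 1
  apply (Nat.modEq_iff_dvd.mpr _ : b ≡ c [MOD 4 * a.natAbs])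
  push_cast
  have h1 : 4 * |a| ∣ 4 * a := mul_dvd_mul_left 4 ((abs_dvd a a).mpr dvd_rfl)
  have := h1.trans h
  exact (dvd_sub_comm).mp this

lemma jac_of_one_mod (a : ℤ) {b : ℕ} (hb : Odd b) (h : 4 * a ∣ (b : ℤ) - 1) :
    jacobiSym a b = 1 := by
  rw [jac_right_congr a hb odd_one (by simpa using h), jacobiSym.one_right]

lemma jac_of_neg_one_mod {y : ℤ} (hy : 0 < y) {N : ℕ} (h : 4 * y ∣ (N : ℤ) + 1) :
    jacobiSym y N = 1 := by
  obtain ⟨k, hk⟩ := h
  have hN : Odd N := by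
    have : (N : ℤ) % 2 = 1 := by
      have : (N : ℤ) = 2 * (2 * y * k - 1) + 1 := by linarith
      omega
    exact Nat.odd_iff.mpr (by omega)
  obtain ⟨c, hc⟩ : ∃ c : ℕ, (c : ℤ) = 4 * y - 1 := ⟨(4 * y - 1).toNat, by omega⟩
  have hco : Odd c := Nat.odd_iff.mpr (by omega)
  rw [jac_right_congr y hN hco ⟨k - 1, by rw [hc]; linarith⟩]
  have h4 := jacobiSym.at_four hco
  have h5 : jacobiSym (4 * y) c = jacobiSym 1 c := jac_left_congr ⟨1, by rw [hc]; ring⟩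
  rw [jacobiSym.mul_left, h4, jacobiSym.one_left, one_mul] at h5
  exact h5

lemma jac_neg_three_mod_four {p N : ℕ} (hp : p % 4 = 3) (hN : Odd N) :
    jacobiSym (-(p : ℤ)) N = jacobiSym N p := by
  rw [jacobiSym.neg _ hN]
  have hpo : Odd p := Nat.odd_iff.mpr (by omega)
  have hN2 := Nat.odd_iff.mp hN
  have : N % 4 = 1 ∨ N % 4 = 3 := by omega
  rcases this with h | h
  · rw [ZMod.χ₄_nat_one_mod_four h, one_mul, jacobiSym.quadratic_reciprocity_one_mod_four h hpo]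
  · rw [ZMod.χ₄_nat_three_mod_four h, jacobiSym.quadratic_reciprocity_three_mod_four hp h]
    ring

lemma dirichlet {M a : ℤ} (hM : M ≠ 0) (h : IsCoprime a M) (n : ℕ) :
    ∃ p : ℕ, n < p ∧ p.Prime ∧ M ∣ (p : ℤ) - a := by
  obtain ⟨p, hp1, hp2, hp3⟩ := Nat.forall_exists_prime_gt_and_zmodEq n (q := M.natAbs) (a := a)
    (Int.natAbs_ne_zero.mpr hM) (by
      rw [Int.natCast_natAbs]
      rcases abs_choice M with h1 | h1 <;> rw [h1]
      · exact h
      · exact h.neg_right)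
  refine ⟨p, hp1, hp2, ?_⟩
  have := hp3.symm.dvd
  rwa [Int.natCast_natAbs, abs_dvd] at this

lemma coprime_of_prime_not_dvd {p : ℕ} (hp : p.Prime) {a : ℤ} (h : ¬ (p : ℤ) ∣ a) :
    IsCoprime (p : ℤ) a :=
  (Int.prime_iff_natAbs_prime.mpr (by simpa using hp)).irreducible.coprime_iff_not_dvd.mpr h

lemma intPrime {p : ℕ} (hp : p.Prime) : Prime (p : ℤ) := Nat.prime_iff_prime_int.mp hp

/-- `Tern k t`: the rational `t` is a value of `a ^ 2 + b ^ 2 + k * c ^ 2`. -/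
def Tern (k t : ℚ) : Prop := ∃ a b c : ℚ, t = a ^ 2 + b ^ 2 + k * c ^ 2

lemma Tern.mul_sq {k t : ℚ} (h : Tern k t) (f : ℚ) : Tern k (t * f ^ 2) := by
  obtain ⟨a, b, c, rfl⟩ := h
  exact ⟨a * f, b * f, c * f, by ring⟩

lemma not_dvd_four {p : ℕ} (hp : p.Prime) (hp4 : p % 4 = 3) : ¬ (p : ℤ) ∣ 4 := by
  intro h
  have h1 : p ∣ 4 := by exact_mod_cast h
  have h2 : p ≤ 4 := Nat.le_of_dvd (by norm_num) h1
  have h3 : p = 3 := by omega
  subst h3
  norm_num at h1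

theorem tern_of_not_dvd {p : ℕ} (hp : p.Prime) (hp4 : p % 4 = 3) {y : ℤ} (hy : 0 < y)
    (hpy : ¬ (p : ℤ) ∣ y) : Tern p y := by
  have hc : IsCoprime (4 * y) (p : ℤ) :=
    (coprime_of_prime_not_dvd hp (fun h => ((intPrime hp).dvd_or_dvd h).elim
      (not_dvd_four hp hp4) hpy)).symm
  obtain ⟨t, ⟨k1, hk1⟩, ⟨k2, hk2⟩⟩ := crt2 hc (-1) 1
  have hp0 : (0 : ℤ) < p := by exact_mod_cast hp.pos
  have hct : IsCoprime t (4 * y * p) :=
    IsCoprime.mul_right ⟨-1, k1, by linarith⟩ ⟨1, -k2, by linarith⟩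
  obtain ⟨N, -, hN, k3, hk3⟩ := dirichlet (M := 4 * y * p) (by positivity) hct 0
  have hN0 : (0 : ℤ) < N := by exact_mod_cast hN.pos
  have h1 : 4 * y ∣ (N : ℤ) + 1 := ⟨p * k3 + k1, by linarith⟩
  have h2 : (p : ℤ) ∣ (N : ℤ) - 1 := ⟨4 * y * k3 + k2, by linarith⟩
  have hNo : Odd N := by
    obtain ⟨k, hk⟩ := h1
    have : (N : ℤ) = 2 * (2 * y * k - 1) + 1 := by linarith
    exact Nat.odd_iff.mpr (by omega)
  have hr1 : Rep (N : ℤ) y := by
    apply legendre_rep y N hy hN0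
    · obtain ⟨k, hk⟩ := h1
      exact ⟨4 * k, -1, by linarith⟩
    · exact sq_of_jac hN (jac_of_neg_one_mod hy h1)
    · exact ⟨1, by
        obtain ⟨k, hk⟩ := h1
        exact ⟨4 * k, by linarith⟩⟩
  have hr2 : Rep (p : ℤ) (N : ℤ) := by
    apply legendre_rep N p hN0 hp0
    · obtain ⟨k, hk⟩ := h2
      exact ⟨1, -k, by linarith⟩
    · exact ⟨1, by
        obtain ⟨k, hk⟩ := h2
        exact ⟨-k, by linarith⟩⟩
    · have : jacobiSym (-(p : ℤ)) N = 1 := by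
        rw [jac_neg_three_mod_four hp4 hNo, jac_left_congr h2, jacobiSym.one_left]
      obtain ⟨t, ht⟩ := sq_of_jac hN this
      exact ⟨t, by simpa using ht⟩
  obtain ⟨g, h, hgh⟩ := hr1
  obtain ⟨u, v, huv⟩ := hr2
  refine ⟨g, u * h, v * h, ?_⟩
  rw [hgh, huv]; push_cast; ring

theorem tern_mul_of_sq {p : ℕ} (hp : p.Prime) (hp4 : p % 4 = 3) {y : ℤ} (hy : 0 < y)
    (hpy : ¬ (p : ℤ) ∣ y) (hsq : ∃ t : ℤ, (p : ℤ) ∣ t ^ 2 - y) : Tern p (p * y) := by
  have hc : IsCoprime (p : ℤ) (4 * y) :=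
    (coprime_of_prime_not_dvd hp (fun h => ((intPrime hp).dvd_or_dvd h).elim
      (not_dvd_four hp hp4) hpy))
  have hp0 : (0 : ℤ) < p := by exact_mod_cast hp.pos
  obtain ⟨u, v, huv⟩ := hc
  have hct : IsCoprime (-u) (4 * y) := ⟨-p, v, by linarith⟩
  obtain ⟨n, hn1, hn, k3, hk3⟩ := dirichlet (M := 4 * y) (by positivity) hct p
  have hn0 : (0 : ℤ) < n := by exact_mod_cast hn.pos
  have h1 : 4 * y ∣ ((p * n : ℕ) : ℤ) + 1 := ⟨p * k3 + v, by
    push_cast; linear_combination (p : ℤ) * hk3 - huv⟩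
  have hj := jac_of_neg_one_mod hy h1
  obtain ⟨t1, ht1⟩ := hsq
  have hj1 : jacobiSym y p = 1 := jac_of_sq (coprime_of_prime_not_dvd hp hpy).symm ht1
  rw [jacobiSym.mul_right' y hp.ne_zero hn.ne_zero, hj1, one_mul] at hj
  obtain ⟨t2, ht2⟩ := sq_of_jac hn hj
  have hpn : IsCoprime (p : ℤ) n :=
    Nat.isCoprime_iff_coprime.mpr ((Nat.coprime_primes hp hn).mpr hn1.ne)
  have hr1 : Rep ((p : ℤ) * n : ℤ) y := by
    obtain ⟨k, hk⟩ := h1
    push_cast at hk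
    apply legendre_rep y (p * n) hy (by positivity)
    · exact ⟨4 * k, -1, by linarith⟩
    · obtain ⟨t, h3, h4⟩ := crt2 hpn t1 t2
      refine ⟨t, hpn.mul_dvd ?_ ?_⟩
      · have : t ^ 2 - y = (t - t1) * (t + t1) + (t1 ^ 2 - y) := by ring
        rw [this]; exact dvd_add (h3.mul_right _) ht1
      · have : t ^ 2 - y = (t - t2) * (t + t2) + (t2 ^ 2 - y) := by ring
        rw [this]; exact dvd_add (h4.mul_right _) ht2
    · exact ⟨1, 4 * k, by linarith⟩
  have hn4 : n % 4 ≠ 3 := by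
    intro h
    obtain ⟨k, hk⟩ := h1
    have h2 : (p * n) % 4 = 1 := by rw [Nat.mul_mod, hp4, h]
    have h3 : ((p * n : ℕ) : ℤ) = 4 * (y * k) - 1 := by linarith
    omega
  have : Fact n.Prime := ⟨hn⟩
  obtain ⟨a, b, hab⟩ := Nat.Prime.sq_add_sq hn4
  obtain ⟨g, h, hgh⟩ := hr1
  refine ⟨p * h * a, p * h * b, g, ?_⟩
  have hab' : (a : ℚ) ^ 2 + b ^ 2 = n := by exact_mod_cast hab
  rw [hgh]; push_cast
  rw [← hab']; ring

lemma inert_of_jac {q : ℕ} (hq : q.Prime) {A : ℤ} (h : jacobiSym (-A) q = -1) {y z : ℤ}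
    (hd : (q : ℤ) ∣ y ^ 2 + A * z ^ 2) : (q : ℤ) ∣ y ∧ (q : ℤ) ∣ z := by
  have : Fact q.Prime := ⟨hq⟩
  exact jacobiSym.prime_dvd_of_eq_neg_one h (by simpa using hd)

lemma tern_aniso_int {p : ℕ} (hp : p.Prime) (hp4 : p % 4 = 3) {e : ℤ} (he : jacobiSym e p = -1) :
    ∀ (k : ℕ) (s a b c : ℤ), s.natAbs = k → p * e * s ^ 2 = a ^ 2 + b ^ 2 + p * c ^ 2 → s = 0 := by
  have hp0 : (0 : ℤ) < p := by exact_mod_cast hp.pos
  have hm1 : jacobiSym (-1) p = -1 := by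
    rw [jacobiSym.at_neg_one (Nat.odd_iff.mpr (by omega)), ZMod.χ₄_nat_three_mod_four hp4]
  intro k
  induction k using Nat.strong_induction_on with
  | _ k ih =>
    intro s a b c hk h
    obtain ⟨⟨a', rfl⟩, ⟨b', rfl⟩⟩ := inert_of_jac hp (A := 1) hm1 (y := a) (z := b)
      ⟨e * s ^ 2 - c ^ 2, by linarith⟩
    have h2 : e * s ^ 2 = p * (a' ^ 2 + b' ^ 2) + c ^ 2 := by
      apply mul_left_cancel₀ hp0.ne'
      linarith
    obtain ⟨⟨c', rfl⟩, ⟨s', rfl⟩⟩ := inert_of_jac hp (A := -e) (by simpa using he) (y := c) (z := s)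
      ⟨-(a' ^ 2 + b' ^ 2), by linarith⟩
    by_cases hs : s' = 0
    · simp [hs]
    · exfalso
      apply hs
      apply ih s'.natAbs _ s' a' b' c' rfl
      · apply mul_left_cancel₀ hp0.ne'
        linarith
      · rw [← hk, Int.natAbs_mul, Int.natAbs_natCast]
        have h1 : 0 < s'.natAbs := Int.natAbs_pos.mpr hs
        have h3 := hp.two_le
        nlinarith

theorem not_tern {p : ℕ} (hp : p.Prime) (hp4 : p % 4 = 3) {e : ℤ} (he : jacobiSym e p = -1) :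
    ¬ Tern p (p * e) := by
  rintro ⟨a, b, c, h⟩
  have ha : (a.num : ℚ) = a * a.den := (Rat.mul_den_eq_num a).symm
  have hb : (b.num : ℚ) = b * b.den := (Rat.mul_den_eq_num b).symm
  have hc : (c.num : ℚ) = c * c.den := (Rat.mul_den_eq_num c).symm
  have h1 : (p : ℚ) * e * (a.den * b.den * c.den) ^ 2 = (a.num * b.den * c.den) ^ 2 +
      (b.num * a.den * c.den) ^ 2 + p * (c.num * a.den * b.den) ^ 2 := by
    rw [ha, hb, hc, h]; ring
  have h2 : (p : ℤ) * e * (a.den * b.den * c.den) ^ 2 = (a.num * b.den * c.den) ^ 2 +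
      (b.num * a.den * c.den) ^ 2 + p * (c.num * a.den * b.den) ^ 2 := by exact_mod_cast h1
  have := tern_aniso_int hp hp4 he _ _ _ _ _ rfl h2
  have h3 : (0 : ℤ) < a.den * b.den * c.den := by
    have := a.den_pos; have := b.den_pos; have := c.den_pos
    positivity
  omega

/-- If `q` is inert for the form `y ^ 2 + A z ^ 2` and divides a represented integer, so does its
square. -/
lemma sq_dvd_of_inert {q : ℕ} (hq : q.Prime) {A : ℤ} (h : jacobiSym (-A) q = -1) {t : ℤ}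
    (ht : Rep A t) (hd : (q : ℤ) ∣ t) : (q : ℤ) ^ 2 ∣ t := by
  obtain ⟨D, y, z, hD, he⟩ := ht.exists_int
  have hq0 : (0 : ℤ) < q := by exact_mod_cast hq.pos
  induction hk : D.natAbs using Nat.strong_induction_on generalizing D y z with
  | _ k ih =>
    obtain ⟨⟨y', rfl⟩, ⟨z', rfl⟩⟩ := inert_of_jac hq h (y := y) (z := z)
      (he ▸ hd.mul_right _)
    by_cases hqD : (q : ℤ) ∣ D
    · obtain ⟨D', rfl⟩ := hqD
      have hD' : D' ≠ 0 := by rintro rfl; simp at hD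
      apply ih D'.natAbs _ D' y' z' hD' _ rfl
      · rw [← hk, Int.natAbs_mul, Int.natAbs_natCast]
        have h1 : 0 < D'.natAbs := Int.natAbs_pos.mpr hD'
        have h3 := hq.two_le
        nlinarith
      · apply mul_left_cancel₀ (pow_pos hq0 2).ne'
        linarith
    · have hc : IsCoprime ((q : ℤ) ^ 2) (D ^ 2) := (coprime_of_prime_not_dvd hq hqD).pow
      exact hc.dvd_of_dvd_mul_right ⟨y' ^ 2 + A * z' ^ 2, by linarith⟩

/-- the Jacobi symbol of a product of residues -/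
lemma jac_left_one_of_primes {m : ℕ} : ∀ {s : ℕ}, s ≠ 0 →
    (∀ q : ℕ, q.Prime → q ∣ s → jacobiSym q m = 1) → jacobiSym s m = 1 := by
  intro s
  induction s using induction_on_primes with
  | zero => intro h; exact absurd rfl h
  | one => intro _ _; simpa using jacobiSym.one_left m
  | prime_mul p a hp ih =>
    intro h0 h
    push_cast
    rw [jacobiSym.mul_left, h p hp (dvd_mul_right _ _),
      ih (right_ne_zero_of_mul h0) (fun q hq hqa => h q hq (hqa.mul_left _)), one_mul]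

lemma jac_right_one_of_primes {a : ℤ} : ∀ {s : ℕ}, s ≠ 0 →
    (∀ q : ℕ, q.Prime → q ∣ s → jacobiSym a q = 1) → jacobiSym a s = 1 := by
  intro s
  induction s using induction_on_primes with
  | zero => intro h; exact absurd rfl h
  | one => intro _ _; exact jacobiSym.one_right a
  | prime_mul p b hp ih =>
    intro h0 h
    rw [jacobiSym.mul_right' a hp.ne_zero (right_ne_zero_of_mul h0), h p hp (dvd_mul_right _ _),
      ih (right_ne_zero_of_mul h0) (fun q hq hqa => h q hq (hqa.mul_left _)), one_mul]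

end Pool.Agent.Lib.Legendre
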